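import Pool.Agent.SPV.StmtsB
import Pool.Agent.Helper67_SPV.CNB

/-!
# Squad SPV, row CNS (helper67): the number of the sets inside `S` with a given pattern
-/

set_option autoImplicit false

namespace Pool.Agent.SPV.H67

open Finset Pool.Agent.SPV

theorem cns (hP : ProStmt) (hD : DgrStmt) (hM : DimStmt) : CnsStmt := by
  intro K _ g q m hq hg S hSq D T hT
  classical
  have hT1 : ∀ B : T, ∃ b : ℕ → K, (∀ a ∈ (B : Finset ℕ), b a ≠ 0) ∧
      ∀ j < 2 * m, j ∉ D → es g (B : Finset ℕ) b j = 0 := fun B => (hT B B.2).2.2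
  choose b hb0 hbD using hT1
  have hsub' : ∀ B : T, (B : Finset ℕ) ⊆ S := fun B => (hT B B.2).1
  have hsub : ∀ B : T, (B : Finset ℕ) ⊆ range q := fun B => (hsub' B).trans hSq
  have hcard : ∀ B : T, (B : Finset ℕ).card = m := fun B => (hT B B.2).2.1
  choose P hPd hPe using fun y : K => hD K m D y
  obtain ⟨v, hv⟩ : ∃ v : T → D → K, ∀ B d, v B d = es g (B : Finset ℕ) (b B) (d : ℕ) :=
    ⟨fun B d => es g (B : Finset ℕ) (b B) (d : ℕ), fun _ _ => rfl⟩
  have hinj : ∀ i j, i < q → j < q → g ^ i = g ^ j → i = j := fun i j hi hj h =>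
    hg.pow_inj hi hj h
  have hev : ∀ (B : T) (c : ℕ), c < q →
      (MvPolynomial.eval (v B) (P (g ^ c)) = 0 ↔ c ∈ (B : Finset ℕ)) := by
    intro B c hc
    rw [hPe]
    have h1 : chi m (fun j => if h : j ∈ D then v B ⟨j, h⟩ else 0) (g ^ c) =
        chi m (es g (B : Finset ℕ) (b B)) (g ^ c) := by
      apply chi_congr
      intro j hj
      by_cases hjD : j ∈ D
      · rw [dif_pos hjD, hv]
      · rw [dif_neg hjD, hbD B j hj hjD]
    rw [h1]
    have h2 := hP K g (B : Finset ℕ) (b B) (fun i hi j hj h =>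
      hinj i j (mem_range.1 (hsub B hi)) (mem_range.1 (hsub B hj)) h) (hb0 B) (g ^ c)
    rw [hcard B] at h2
    rw [h2]
    constructor
    · rintro ⟨a, ha, hac⟩
      rw [hinj c a hc (mem_range.1 (hsub B ha)) hac]
      exact ha
    · intro hcB
      exact ⟨c, hcB, rfl⟩
  obtain ⟨Q, hQ⟩ : ∃ Q : T → MvPolynomial D K, ∀ B, Q B =
      ∏ c ∈ S.filter (fun c => c ∉ (B : Finset ℕ)), P (g ^ c) := ⟨_, fun _ => rfl⟩
  have hQd : ∀ B, (Q B).totalDegree ≤ m * S.card := by
    intro B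
    rw [hQ]
    refine (MvPolynomial.totalDegree_finsetProd _ _).trans ?_
    refine (Finset.sum_le_card_nsmul _ _ m fun c _ => hPd (g ^ c)).trans ?_
    rw [smul_eq_mul, mul_comm]
    apply Nat.mul_le_mul_left
    exact Finset.card_filter_le S (fun c => c ∉ (B : Finset ℕ))
  have hQ0 : ∀ B, MvPolynomial.eval (v B) (Q B) ≠ 0 := by
    intro B
    rw [hQ, map_prod, Finset.prod_ne_zero_iff]
    intro c hc h0
    rw [Finset.mem_filter] at hc
    exact hc.2 ((hev B c (mem_range.1 (hSq hc.1))).1 h0)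
  have hQ1 : ∀ B B', B ≠ B' → MvPolynomial.eval (v B') (Q B) = 0 := by
    intro B B' hne
    have h1 : ¬ (B' : Finset ℕ) ⊆ (B : Finset ℕ) := by
      intro hs
      have h2 := Finset.eq_of_subset_of_card_le hs (by rw [hcard, hcard])
      exact hne (Subtype.ext h2.symm)
    obtain ⟨c, hcB', hcB⟩ := Finset.not_subset.1 h1
    have hc := mem_range.1 (hsub B' hcB')
    rw [hQ, map_prod]
    exact Finset.prod_eq_zero (Finset.mem_filter.2 ⟨hsub' B' hcB', hcB⟩)
      ((hev B' c hc).2 hcB')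
  have h1 := hM K D T.card (m * S.card) (fun i => Q (T.equivFin.symm i))
    (fun i => v (T.equivFin.symm i)) (fun i => hQd _) (fun i => hQ0 _)
    (fun i j hij => hQ1 _ _ fun h => hij (T.equivFin.symm.injective h))
  rw [Fintype.card_coe] at h1
  exact h1

end Pool.Agent.SPV.H67
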